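import Mathlib

/-! Limsup sets: a countable family of sets with `∑ (diam A_i) ^ D < ∞`, and windows around the values `g_n (α)` of a
sequence of functions which contain no member of a thin set of integers. -/

set_option autoImplicit false

open Finset Filter Topology MeasureTheory

namespace Pool.Agent.H164.LS

open scoped ENNReal NNReal

/-- The points in infinitely many members of a countable family of sets with `∑ (diam A_i) ^ D < ∞` form a set of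
Hausdorff dimension at most `D`. -/
theorem dimH_limsup {X ι : Type} [MetricSpace X] [Countable ι] (A : ι → Set X) {D : ℝ} (hD : 0 < D) (r : ι → ℝ)
    (hr : ∀ i, 0 ≤ r i) (hA : ∀ i, Metric.ediam (A i) ≤ ENNReal.ofReal (r i)) (hsum : Summable fun i => (r i) ^ D) :
    dimH {x : X | {i | x ∈ A i}.Infinite} ≤ ENNReal.ofReal D := by
  borelize X
  have hDn : ((Real.toNNReal D : ℝ≥0) : ℝ) = D := Real.coe_toNNReal D hD.le
  have hgoal : ENNReal.ofReal D = ((Real.toNNReal D : ℝ≥0) : ℝ≥0∞) := rfl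
  rw [hgoal]
  apply dimH_le_of_hausdorffMeasure_ne_top
  rw [hDn]
  have hfin : (∑' i, ENNReal.ofReal ((r i) ^ D)) ≠ ⊤ := by
    rw [← ENNReal.ofReal_tsum_of_nonneg (fun i => Real.rpow_nonneg (hr i) _) hsum]
    exact ENNReal.ofReal_ne_top
  have htail := ENNReal.tendsto_tsum_compl_atTop_zero hfin
  set R : Finset ι → ℝ≥0∞ := fun F => ⨆ i : {i // i ∉ F}, ENNReal.ofReal (r i) with hR
  have hRt : Tendsto R atTop (𝓝 0) := by
    rw [ENNReal.tendsto_nhds_zero]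
    intro ε hε
    by_cases hεt : ε = ⊤
    · exact Eventually.of_forall fun F => by rw [hεt]; exact le_top
    have hε' : 0 < ε.toReal := ENNReal.toReal_pos hε.ne' hεt
    have h1 : {i | ¬ (r i) ^ D < ε.toReal ^ D}.Finite := by
      have h2 := hsum.tendsto_cofinite_zero.eventually (gt_mem_nhds (Real.rpow_pos_of_pos hε' D))
      exact h2
    filter_upwards [eventually_ge_atTop h1.toFinset] with F hF
    apply iSup_le
    rintro ⟨i, hi⟩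
    have h3 : i ∉ h1.toFinset := fun h => hi (hF h)
    rw [Set.Finite.mem_toFinset, Set.mem_ofPred_eq, not_not] at h3
    have h4 : r i < ε.toReal := (Real.rpow_lt_rpow_iff (hr i) hε'.le hD).1 h3
    calc ENNReal.ofReal (r i) ≤ ENNReal.ofReal ε.toReal := ENNReal.ofReal_le_ofReal h4.le
      _ = ε := ENNReal.ofReal_toReal hεt
  have key := Measure.hausdorffMeasure_le_liminf_tsum (X := X) (β := Finset ι)
    (ι := fun F => {i // i ∉ F}) D {x : X | {i | x ∈ A i}.Infinite} (l := atTop) R hRt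
    (fun F i => A i)
    (Eventually.of_forall fun F i => (hA i).trans (le_iSup (fun i : {i // i ∉ F} => ENNReal.ofReal (r i)) i))
    (Eventually.of_forall fun F x hx => by
      obtain ⟨i, hi1, hi2⟩ := Set.Infinite.exists_notMem_finset hx F
      exact Set.mem_iUnion.2 ⟨⟨i, hi2⟩, hi1⟩)
  refine ne_top_of_le_ne_top ?_ key
  have hle : liminf (fun F : Finset ι => ∑' i : {i // i ∉ F}, Metric.ediam (A i) ^ D) atTop ≤ 0 := by
    have h1 : Tendsto (fun F : Finset ι => ∑' i : {i // i ∉ F}, Metric.ediam (A i) ^ D) atTop (𝓝 0) := by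
      refine tendsto_of_tendsto_of_tendsto_of_le_of_le tendsto_const_nhds htail (fun F => bot_le) (fun F => ?_)
      refine ENNReal.tsum_le_tsum fun i => ?_
      calc Metric.ediam (A i) ^ D ≤ (ENNReal.ofReal (r i)) ^ D := ENNReal.rpow_le_rpow (hA i) hD.le
        _ = ENNReal.ofReal ((r i) ^ D) := ENNReal.ofReal_rpow_of_nonneg (hr i) hD.le
    exact h1.liminf_eq.le
  exact ne_top_of_le_ne_top ENNReal.zero_ne_top hle

/-- windows around `g_n (α)`, `α ∈ [a, b]` -/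
theorem dim_curve (S : Set ℕ) (g : ℕ → ℝ → ℝ) {a b : ℝ} (M w : ℕ → ℝ) {σ θ D C : ℝ} (hD : 0 < D) (hθ0 : 0 ≤ θ)
    (hθ1 : θ ≤ 1) (hσ : 0 ≤ σ) (hC : 0 ≤ C)
    (hS : ∀ X : ℝ, 1 ≤ X → ({t : ℕ | t ∈ S ∧ (t : ℝ) ≤ X}.ncard : ℝ) ≤ C * X ^ σ)
    (hM : ∀ n, 1 ≤ M n) (hg1 : ∀ n, ∀ α ∈ Set.Icc a b, 1 ≤ g n α ∧ g n α ≤ M n) (hw : ∀ n, 0 < w n)
    (hg2 : ∀ n, ∀ α ∈ Set.Icc a b, ∀ β ∈ Set.Icc a b, w n * |α - β| ≤ |g n α - g n β|)
    (hsum : Summable fun n => (M n) ^ σ * ((M n) ^ θ / w n) ^ D) :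
    dimH {α : ℝ | α ∈ Set.Icc a b ∧ ∀ n₁ : ℕ, ∃ n, n₁ ≤ n ∧ ∃ t ∈ S, |(t : ℝ) - g n α| ≤ (g n α) ^ θ} ≤
      ENNReal.ofReal D := by
  have hfin : ∀ n : ℕ, {t : ℕ | t ∈ S ∧ (t : ℝ) ≤ 2 * M n}.Finite := fun n =>
    (Set.finite_Icc 0 ⌊2 * M n⌋₊).subset fun t ht => ⟨Nat.zero_le _, Nat.le_floor ht.2⟩
  set U : ℕ → Finset ℕ := fun n => (hfin n).toFinset with hU
  have hcard : ∀ n, ((U n).card : ℝ) ≤ C * (2 * M n) ^ σ := by
    intro n
    have h1 := hS (2 * M n) (by linarith [hM n])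
    rwa [Set.ncard_eq_toFinset_card _ (hfin n)] at h1
  set A : (Σ n : ℕ, (U n)) → Set ℝ := fun q => {α : ℝ | α ∈ Set.Icc a b ∧
    |((q.2 : ℕ) : ℝ) - g q.1 α| ≤ (g q.1 α) ^ θ} with hA
  set r : (Σ n : ℕ, (U n)) → ℝ := fun q => 2 * (M q.1) ^ θ / w q.1 with hr
  have hr0 : ∀ q, 0 ≤ r q := fun q =>
    div_nonneg (mul_nonneg two_pos.le (Real.rpow_nonneg (by linarith [hM q.1]) _)) (hw q.1).le
  have hd : ∀ q, Metric.ediam (A q) ≤ ENNReal.ofReal (r q) := by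
    intro q
    apply Metric.ediam_le
    intro α hα β hβ
    rw [edist_dist, Real.dist_eq]
    apply ENNReal.ofReal_le_ofReal
    rw [hr, le_div_iff₀ (hw q.1), mul_comm]
    refine (hg2 q.1 α hα.1 β hβ.1).trans ?_
    have h1 : (g q.1 α) ^ θ ≤ (M q.1) ^ θ :=
      Real.rpow_le_rpow (by linarith [(hg1 q.1 α hα.1).1]) (hg1 q.1 α hα.1).2 hθ0
    have h2 : (g q.1 β) ^ θ ≤ (M q.1) ^ θ :=
      Real.rpow_le_rpow (by linarith [(hg1 q.1 β hβ.1).1]) (hg1 q.1 β hβ.1).2 hθ0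
    have h3 := abs_le.1 hα.2
    have h4 := abs_le.1 hβ.2
    rw [abs_le]
    constructor <;> linarith [h3.1, h3.2, h4.1, h4.2]
  have hs : Summable fun q => (r q) ^ D := by
    rw [summable_sigma_of_nonneg (fun q => Real.rpow_nonneg (hr0 q) _)]
    refine ⟨fun n => (hasSum_fintype _).summable, ?_⟩
    refine Summable.of_nonneg_of_le (fun n => tsum_nonneg fun t => Real.rpow_nonneg (hr0 _) _) (fun n => ?_)
      (hsum.mul_left (C * 2 ^ σ * 2 ^ D))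
    have hMn : 0 < M n := by linarith [hM n]
    have h0 : ∑ b : (U n), (r ⟨n, b⟩) ^ D = ((U n).card : ℝ) * (2 * (M n) ^ θ / w n) ^ D := by
      have : ∀ b : (U n), (r ⟨n, b⟩) ^ D = (2 * (M n) ^ θ / w n) ^ D := fun b => rfl
      rw [Finset.sum_congr rfl (fun b _ => this b), Finset.sum_const, Finset.card_univ, Fintype.card_coe, nsmul_eq_mul]
    rw [tsum_fintype, h0]
    have h1 : (2 * (M n) ^ θ / w n) ^ D = 2 ^ D * ((M n) ^ θ / w n) ^ D := by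
      rw [mul_div_assoc, Real.mul_rpow two_pos.le (div_nonneg (Real.rpow_nonneg hMn.le _) (hw n).le)]
    calc ((U n).card : ℝ) * (2 * (M n) ^ θ / w n) ^ D ≤ (C * (2 * M n) ^ σ) * (2 * (M n) ^ θ / w n) ^ D := by
          apply mul_le_mul_of_nonneg_right (hcard n)
          exact Real.rpow_nonneg (div_nonneg (mul_nonneg two_pos.le (Real.rpow_nonneg hMn.le _)) (hw n).le) _
      _ = C * 2 ^ σ * 2 ^ D * ((M n) ^ σ * ((M n) ^ θ / w n) ^ D) := by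
          rw [h1, Real.mul_rpow two_pos.le hMn.le]
          ring
  refine (dimH_mono ?_).trans (dimH_limsup A hD r hr0 hd hs)
  rintro α ⟨hα, hlim⟩
  have h1 : ∀ n₁ : ℕ, ∃ q : (Σ n : ℕ, (U n)), n₁ ≤ q.1 ∧ α ∈ A q := by
    intro n₁
    obtain ⟨n, hn, t, ht, hw'⟩ := hlim n₁
    have h2 := hg1 n α hα
    have h3 : (g n α) ^ θ ≤ g n α := by
      calc (g n α) ^ θ ≤ (g n α) ^ (1 : ℝ) := Real.rpow_le_rpow_of_exponent_le h2.1 hθ1
        _ = g n α := Real.rpow_one _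
    have h4 := abs_le.1 hw'
    have h5 : t ∈ U n := by
      rw [hU, Set.Finite.mem_toFinset]
      exact ⟨ht, by linarith [h4.2, h2.2]⟩
    exact ⟨⟨n, ⟨t, h5⟩⟩, hn, hα, hw'⟩
  show {q | α ∈ A q}.Infinite
  intro hf
  obtain ⟨N, hN⟩ : ∃ N : ℕ, ∀ q ∈ {q | α ∈ A q}, q.1 < N := by
    obtain ⟨N, hN⟩ := (hf.image (fun q : (Σ n : ℕ, (U n)) => q.1)).bddAbove
    exact ⟨N + 1, fun q hq => Nat.lt_succ_of_le (hN (Set.mem_image_of_mem _ hq))⟩
  obtain ⟨q, hq1, hq2⟩ := h1 N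
  exact absurd (hN q hq2) (not_lt.2 hq1)

/-- the same for all large `n` -/
theorem dim_curve' (S : Set ℕ) (g : ℕ → ℝ → ℝ) {a b : ℝ} (M w : ℕ → ℝ) {σ θ D C : ℝ} (N₀ : ℕ) (hD : 0 < D)
    (hθ0 : 0 ≤ θ) (hθ1 : θ ≤ 1) (hσ : 0 ≤ σ) (hC : 0 ≤ C)
    (hS : ∀ X : ℝ, 1 ≤ X → ({t : ℕ | t ∈ S ∧ (t : ℝ) ≤ X}.ncard : ℝ) ≤ C * X ^ σ)
    (hM : ∀ n, N₀ ≤ n → 1 ≤ M n) (hg1 : ∀ n, N₀ ≤ n → ∀ α ∈ Set.Icc a b, 1 ≤ g n α ∧ g n α ≤ M n)
    (hw : ∀ n, N₀ ≤ n → 0 < w n)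
    (hg2 : ∀ n, N₀ ≤ n → ∀ α ∈ Set.Icc a b, ∀ β ∈ Set.Icc a b, w n * |α - β| ≤ |g n α - g n β|)
    (hsum : Summable fun n => (M n) ^ σ * ((M n) ^ θ / w n) ^ D) :
    dimH {α : ℝ | α ∈ Set.Icc a b ∧ ∀ n₁ : ℕ, ∃ n, n₁ ≤ n ∧ ∃ t ∈ S, |(t : ℝ) - g n α| ≤ (g n α) ^ θ} ≤
      ENNReal.ofReal D := by
  refine (dimH_mono ?_).trans (dim_curve S (fun n => g (n + N₀)) (a := a) (b := b) (fun n => M (n + N₀))
    (fun n => w (n + N₀)) hD hθ0 hθ1 hσ hC hS (fun n => hM _ (by omega)) (fun n => hg1 _ (by omega))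
    (fun n => hw _ (by omega)) (fun n => hg2 _ (by omega))
    ((summable_nat_add_iff N₀).2 hsum))
  rintro α ⟨hα, hlim⟩
  refine ⟨hα, fun n₁ => ?_⟩
  obtain ⟨n, hn, t, ht, h⟩ := hlim (n₁ + N₀)
  obtain ⟨m, rfl⟩ := Nat.exists_eq_add_of_le' (show N₀ ≤ n by omega)
  exact ⟨m, by omega, t, ht, h⟩

/-- `α ^ n - β ^ n` -/
theorem pow_sub_ge {c α β : ℝ} (hc : 0 ≤ c) (hα : c ≤ α) (hβ : c ≤ β) (n : ℕ) :
    c ^ n * |α - β| ≤ |α ^ (n + 1) - β ^ (n + 1)| := by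
  wlog h : β ≤ α generalizing α β
  · have := this hβ hα (le_of_not_ge h)
    rwa [abs_sub_comm β α, abs_sub_comm (β ^ (n + 1)) (α ^ (n + 1))] at this
  rw [abs_of_nonneg (sub_nonneg.2 h), abs_of_nonneg (sub_nonneg.2 (pow_le_pow_left₀ (hc.trans hβ) h _))]
  have h1 : α ^ (n + 1) - β ^ (n + 1) = α * (α ^ n - β ^ n) + β ^ n * (α - β) := by ring
  rw [h1]
  have h2 : 0 ≤ α * (α ^ n - β ^ n) :=
    mul_nonneg (hc.trans hα) (sub_nonneg.2 (pow_le_pow_left₀ (hc.trans hβ) h _))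
  have h3 : c ^ n * (α - β) ≤ β ^ n * (α - β) :=
    mul_le_mul_of_nonneg_right (pow_le_pow_left₀ hc hβ _) (sub_nonneg.2 h)
  linarith

/-- `n ^ α - n ^ β` -/
theorem rpow_sub_ge {c α β : ℝ} (hα : c ≤ α) (hβ : c ≤ β) {n : ℕ} (hn : 3 ≤ n) :
    (n : ℝ) ^ c * |α - β| ≤ |(n : ℝ) ^ α - (n : ℝ) ^ β| := by
  have hn0 : (3 : ℝ) ≤ n := by exact_mod_cast hn
  have hn1 : (0 : ℝ) < n := by linarith
  wlog h : β ≤ α generalizing α β
  · have := this hβ hα (le_of_not_ge h)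
    rwa [abs_sub_comm β α, abs_sub_comm ((n : ℝ) ^ β) ((n : ℝ) ^ α)] at this
  rw [abs_of_nonneg (sub_nonneg.2 h),
    abs_of_nonneg (sub_nonneg.2 (Real.rpow_le_rpow_of_exponent_le (by linarith) h))]
  have hlog : 1 ≤ Real.log n := by
    rw [Real.le_log_iff_exp_le hn1]
    linarith [Real.exp_one_lt_d9]
  have h1 : (n : ℝ) ^ α = (n : ℝ) ^ β * (n : ℝ) ^ (α - β) := by
    rw [← Real.rpow_add hn1]
    congr 1
    ring
  have h2 : 1 + (α - β) ≤ (n : ℝ) ^ (α - β) := by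
    rw [Real.rpow_def_of_pos hn1]
    have h3 := Real.add_one_le_exp (Real.log n * (α - β))
    nlinarith [sub_nonneg.2 h]
  have h3 : (n : ℝ) ^ c ≤ (n : ℝ) ^ β := Real.rpow_le_rpow_of_exponent_le (by linarith) hβ
  have h4 : 0 ≤ (n : ℝ) ^ β := Real.rpow_nonneg hn1.le _
  rw [h1]
  nlinarith [sub_nonneg.2 h, mul_le_mul_of_nonneg_right h3 (sub_nonneg.2 h),
    mul_le_mul_of_nonneg_left h2 h4]

/-- a set has dimension at most `D` if it has locally -/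
theorem dimH_local {X : Type} [MetricSpace X] [SecondCountableTopology X] (E : Set X) {D : ℝ≥0∞}
    (h : ∀ x ∈ E, ∃ t ∈ 𝓝[E] x, dimH t ≤ D) : dimH E ≤ D := by
  by_contra hcon
  obtain ⟨x, hx, hx2⟩ := exists_mem_nhdsWithin_lt_dimH_of_lt_dimH (not_le.1 hcon)
  obtain ⟨t, ht, ht2⟩ := h x hx
  exact absurd (hx2 t ht) (not_lt.2 ht2)

end Pool.Agent.H164.LS
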