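import Pool.Agent.H164.LS.Core
import Pool.Agent.Y854.GM.WinV

/-! Windows around `α ^ n` and `n ^ α` which contain no member of a thin set of integers. -/

set_option autoImplicit false

open Finset Filter Topology MeasureTheory

namespace Pool.Agent.H164.LS

open scoped ENNReal NNReal

theorem le_ofReal {y : ℝ≥0∞} {x : ℝ} (hx : 0 ≤ x) (h : ∀ D : ℝ, x < D → y ≤ ENNReal.ofReal D) :
    y ≤ ENNReal.ofReal x := by
  apply ENNReal.le_of_forall_pos_le_add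
  intro ε hε _
  have h1 := h (x + ε) (by
    have : (0 : ℝ) < ε := by exact_mod_cast hε
    linarith)
  rwa [ENNReal.ofReal_add hx (by positivity), ENNReal.ofReal_coe_nnreal] at h1

/-- Let `S` have `O (X ^ (s + ε))` elements up to `X`. The `α > 1` with an element of `S` at distance at most
`α ^ (n θ)` from `α ^ n` for infinitely many `n` form a set of dimension at most `s / (1 - θ)`. -/
theorem dim_powers (S : Set ℕ) {s θ : ℝ} (hs : 0 ≤ s) (hθ0 : 0 ≤ θ) (hθ1 : θ < 1)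
    (hS : ∀ ε : ℝ, 0 < ε → ∃ C : ℝ, ∀ X : ℝ, 1 ≤ X →
      ({t : ℕ | t ∈ S ∧ (t : ℝ) ≤ X}.ncard : ℝ) ≤ C * X ^ (s + ε)) :
    dimH {α : ℝ | 1 < α ∧ ∀ n₁ : ℕ, ∃ n, n₁ ≤ n ∧ ∃ t ∈ S, |(t : ℝ) - α ^ n| ≤ (α ^ n) ^ θ} ≤
      ENNReal.ofReal (s / (1 - θ)) := by
  have h1θ : 0 < 1 - θ := by linarith
  refine le_ofReal (div_nonneg hs h1θ.le) fun D hD => ?_
  have hD0 : 0 < D := lt_of_le_of_lt (div_nonneg hs h1θ.le) hD
  rw [div_lt_iff₀ h1θ] at hD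
  apply dimH_local
  rintro x ⟨hx, -⟩
  have hx0 : 0 < x := by linarith
  -- the choice of `δ`
  have hcont : Tendsto (fun δ : ℝ => (x + δ) ^ (s + δ + θ * D) * (x - δ) ^ (-D)) (𝓝[>] 0)
      (𝓝 ((x + 0) ^ (s + 0 + θ * D) * (x - 0) ^ (-D))) := by
    have h1 : ContinuousAt (fun δ : ℝ => (x + δ) ^ (s + δ + θ * D) * (x - δ) ^ (-D)) 0 := by
      apply ContinuousAt.mul
      · apply ContinuousAt.rpow (by fun_prop) (by fun_prop)
        left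
        rw [add_zero]
        exact hx0.ne'
      · apply ContinuousAt.rpow (by fun_prop) (by fun_prop)
        left
        rw [sub_zero]
        exact hx0.ne'
    exact h1.tendsto.mono_left nhdsWithin_le_nhds
  have hlt : (x + 0) ^ (s + 0 + θ * D) * (x - 0) ^ (-D) < 1 := by
    rw [add_zero, add_zero, sub_zero, ← Real.rpow_add hx0]
    apply Real.rpow_lt_one_of_one_lt_of_neg hx
    linarith
  have hev1 := hcont.eventually (gt_mem_nhds hlt)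
  have hev2 : ∀ᶠ δ : ℝ in 𝓝[>] 0, δ < x - 1 := by
    have : ∀ᶠ δ : ℝ in 𝓝 0, δ < x - 1 := gt_mem_nhds (by linarith)
    exact this.filter_mono nhdsWithin_le_nhds
  obtain ⟨δ, ⟨hδ1, hδ2⟩, hδ0⟩ := ((hev1.and hev2).and self_mem_nhdsWithin).exists
  have hδ0' : 0 < δ := hδ0
  obtain ⟨C, hC⟩ := hS δ hδ0'
  have hc0 : 0 < x - δ := by linarith
  have hd0 : 0 < x + δ := by linarith
  refine ⟨{α : ℝ | 1 < α ∧ ∀ n₁ : ℕ, ∃ n, n₁ ≤ n ∧ ∃ t ∈ S, |(t : ℝ) - α ^ n| ≤ (α ^ n) ^ θ} ∩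
    Set.Icc (x - δ) (x + δ), ?_, ?_⟩
  · have hmem : Set.Icc (x - δ) (x + δ) ∈ 𝓝 x := Icc_mem_nhds (by linarith) (by linarith)
    exact inter_mem_nhdsWithin _ hmem
  · have key := dim_curve' S (fun n α => α ^ n) (a := x - δ) (b := x + δ) (fun n => (x + δ) ^ n)
      (fun n => (x - δ) ^ n / (x - δ)) (σ := s + δ) (θ := θ) (D := D) (C := max C 0) 1 hD0 hθ0 hθ1.le
      (by linarith) (le_max_right _ _)
      (fun X hX => (hC X hX).trans (mul_le_mul_of_nonneg_right (le_max_left _ _) (Real.rpow_nonneg (by linarith) _)))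
      (fun n _ => one_le_pow₀ (by linarith))
      (fun n _ α hα => ⟨one_le_pow₀ (by linarith [hα.1]), pow_le_pow_left₀ (by linarith [hα.1]) hα.2 n⟩)
      (fun n _ => by positivity)
      (fun n hn α hα β hβ => by
        obtain ⟨m, rfl⟩ := Nat.exists_eq_add_of_le' hn
        have h1 := pow_sub_ge hc0.le hα.1 hβ.1 m
        rwa [pow_succ (x - δ), mul_div_assoc, div_self hc0.ne', mul_one])
      (by
        have h1 : ∀ n : ℕ, ((x + δ) ^ n) ^ (s + δ) * (((x + δ) ^ n) ^ θ / ((x - δ) ^ n / (x - δ))) ^ D =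
            ((x + δ) ^ (s + δ + θ * D) * (x - δ) ^ (-D)) ^ n * (x - δ) ^ D := by
          intro n
          have e1 : ((x + δ) ^ n) ^ (s + δ) = ((x + δ) ^ (s + δ)) ^ n := by
            rw [← Real.rpow_natCast, ← Real.rpow_natCast, ← Real.rpow_mul hd0.le, ← Real.rpow_mul hd0.le, mul_comm]
          have e2 : ((x + δ) ^ n) ^ θ / ((x - δ) ^ n / (x - δ)) = (((x + δ) ^ n) ^ θ * ((x - δ) ^ n)⁻¹) * (x - δ) := by
            rw [div_div_eq_mul_div]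
            ring
          have e3 : ((((x + δ) ^ n) ^ θ * ((x - δ) ^ n)⁻¹) * (x - δ)) ^ D =
              ((x + δ) ^ (θ * D)) ^ n * ((x - δ) ^ (-D)) ^ n * (x - δ) ^ D := by
            rw [Real.mul_rpow (by positivity) hc0.le, Real.mul_rpow (by positivity) (by positivity)]
            congr 2
            · rw [← Real.rpow_natCast, ← Real.rpow_natCast, ← Real.rpow_mul hd0.le, ← Real.rpow_mul hd0.le,
                ← Real.rpow_mul hd0.le]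
              congr 1
              ring
            · rw [Real.inv_rpow (by positivity), ← Real.rpow_neg (by positivity), ← Real.rpow_natCast,
                ← Real.rpow_natCast, ← Real.rpow_mul hc0.le, ← Real.rpow_mul hc0.le]
              congr 1
              ring
          rw [e1, e2, e3, Real.rpow_add hd0 (s + δ) (θ * D), mul_pow, mul_pow]
          ring
        have h2 : Summable fun n : ℕ => ((x + δ) ^ (s + δ + θ * D) * (x - δ) ^ (-D)) ^ n * (x - δ) ^ D :=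
          (summable_geometric_of_lt_one (by positivity) hδ1).mul_right _
        exact h2.congr fun n => (h1 n).symm)
    refine (dimH_mono ?_).trans key
    rintro α ⟨⟨-, h2⟩, h3⟩
    exact ⟨h3, h2⟩

/-- Let `S` have `O (X ^ (s + ε))` elements up to `X`. The `α ≥ a` with an element of `S` at distance at most
`n ^ (α θ)` from `n ^ α` for infinitely many `n` form a set of dimension at most `(s + 1 / a) / (1 - θ)`. -/
theorem dim_exps (S : Set ℕ) {s θ a : ℝ} (ha : 0 < a) (hs : 0 ≤ s) (hθ0 : 0 ≤ θ) (hθ1 : θ < 1)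
    (hS : ∀ ε : ℝ, 0 < ε → ∃ C : ℝ, ∀ X : ℝ, 1 ≤ X →
      ({t : ℕ | t ∈ S ∧ (t : ℝ) ≤ X}.ncard : ℝ) ≤ C * X ^ (s + ε)) :
    dimH {α : ℝ | a ≤ α ∧ ∀ n₁ : ℕ, ∃ n : ℕ, n₁ ≤ n ∧ ∃ t ∈ S, |(t : ℝ) - (n : ℝ) ^ α| ≤ ((n : ℝ) ^ α) ^ θ} ≤
      ENNReal.ofReal ((s + 1 / a) / (1 - θ)) := by
  have h1θ : 0 < 1 - θ := by linarith
  have hnum : 0 ≤ s + 1 / a := by positivity
  refine le_ofReal (div_nonneg hnum h1θ.le) fun D hD => ?_
  have hD0 : 0 < D := lt_of_le_of_lt (div_nonneg hnum h1θ.le) hD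
  rw [div_lt_iff₀ h1θ] at hD
  apply dimH_local
  rintro x ⟨hx, -⟩
  have hx0 : 0 < x := by linarith
  have hcont : Tendsto (fun δ : ℝ => (x + δ) * (s + δ) + ((x + δ) * θ - (x - δ)) * D) (𝓝[>] 0)
      (𝓝 ((x + 0) * (s + 0) + ((x + 0) * θ - (x - 0)) * D)) := by
    have h1 : ContinuousAt (fun δ : ℝ => (x + δ) * (s + δ) + ((x + δ) * θ - (x - δ)) * D) 0 := by fun_prop
    exact h1.tendsto.mono_left nhdsWithin_le_nhds
  have hlt : (x + 0) * (s + 0) + ((x + 0) * θ - (x - 0)) * D < -1 := by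
    have h1 : x * (s + 1 / a) < x * (D * (1 - θ)) := mul_lt_mul_of_pos_left hD hx0
    have h2 : 1 ≤ x * (1 / a) := by
      rw [mul_one_div, le_div_iff₀ ha]
      linarith
    nlinarith
  have hev1 := hcont.eventually (gt_mem_nhds hlt)
  have hev2 : ∀ᶠ δ : ℝ in 𝓝[>] 0, δ < x := by
    have : ∀ᶠ δ : ℝ in 𝓝 0, δ < x := gt_mem_nhds (by linarith)
    exact this.filter_mono nhdsWithin_le_nhds
  obtain ⟨δ, ⟨hδ1, hδ2⟩, hδ0⟩ := ((hev1.and hev2).and self_mem_nhdsWithin).exists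
  have hδ0' : 0 < δ := hδ0
  obtain ⟨C, hC⟩ := hS δ hδ0'
  have hc0 : 0 < x - δ := by linarith
  have hd0 : 0 < x + δ := by linarith
  refine ⟨{α : ℝ | a ≤ α ∧ ∀ n₁ : ℕ, ∃ n : ℕ, n₁ ≤ n ∧ ∃ t ∈ S, |(t : ℝ) - (n : ℝ) ^ α| ≤ ((n : ℝ) ^ α) ^ θ} ∩
    Set.Icc (x - δ) (x + δ), ?_, ?_⟩
  · have hmem : Set.Icc (x - δ) (x + δ) ∈ 𝓝 x := Icc_mem_nhds (by linarith) (by linarith)
    exact inter_mem_nhdsWithin _ hmem
  · have hn1 : ∀ n : ℕ, 3 ≤ n → (1 : ℝ) ≤ n := fun n hn => by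
      have : 1 ≤ n := by omega
      exact_mod_cast this
    have key := dim_curve' S (fun n α => (n : ℝ) ^ α) (a := x - δ) (b := x + δ) (fun n => (n : ℝ) ^ (x + δ))
      (fun n => (n : ℝ) ^ (x - δ)) (σ := s + δ) (θ := θ) (D := D) (C := max C 0) 3 hD0 hθ0 hθ1.le
      (by linarith) (le_max_right _ _)
      (fun X hX => (hC X hX).trans (mul_le_mul_of_nonneg_right (le_max_left _ _) (Real.rpow_nonneg (by linarith) _)))
      (fun n hn => Real.one_le_rpow (hn1 n hn) hd0.le)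
      (fun n hn α hα => ⟨Real.one_le_rpow (hn1 n hn) (by linarith [hα.1]),
        Real.rpow_le_rpow_of_exponent_le (hn1 n hn) hα.2⟩)
      (fun n hn => Real.rpow_pos_of_pos (by linarith [hn1 n hn]) _)
      (fun n hn α hα β hβ => rpow_sub_ge hα.1 hβ.1 hn)
      (by
        rw [← summable_nat_add_iff 1]
        have h1 : ∀ n : ℕ, (((n + 1 : ℕ) : ℝ) ^ (x + δ)) ^ (s + δ) *
            ((((n + 1 : ℕ) : ℝ) ^ (x + δ)) ^ θ / ((n + 1 : ℕ) : ℝ) ^ (x - δ)) ^ D =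
            ((n + 1 : ℕ) : ℝ) ^ ((x + δ) * (s + δ) + ((x + δ) * θ - (x - δ)) * D) := by
          intro n
          have hp : (0 : ℝ) < ((n + 1 : ℕ) : ℝ) := by positivity
          rw [← Real.rpow_mul hp.le, ← Real.rpow_mul hp.le, ← Real.rpow_sub hp, ← Real.rpow_mul hp.le,
            ← Real.rpow_add hp]
        have h2 : Summable fun n : ℕ => ((n : ℕ) : ℝ) ^ ((x + δ) * (s + δ) + ((x + δ) * θ - (x - δ)) * D) :=
          Real.summable_nat_rpow.2 hδ1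
        exact ((summable_nat_add_iff 1).2 h2).congr fun n => (h1 n).symm)
    refine (dimH_mono ?_).trans key
    rintro α ⟨⟨-, h2⟩, h3⟩
    exact ⟨h3, h2⟩

/-- Let `S` have `O (X ^ (s + ε))` elements up to `X`. Windows around `α v_n`, `α ^ n` and `n ^ α` without elements
of `S`. -/
theorem three (S : Set ℕ) {s θ : ℝ} (hs : 0 ≤ s) (hθ0 : 0 ≤ θ) (hθ1 : θ < 1)
    (hS : ∀ ε : ℝ, 0 < ε → ∃ C : ℝ, ∀ X : ℝ, 1 ≤ X →
      ({t : ℕ | t ∈ S ∧ (t : ℝ) ≤ X}.ncard : ℝ) ≤ C * X ^ (s + ε)) :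
    (∀ (v : ℕ → ℝ) (τ : ℝ), (∀ n, 1 ≤ v n) → 0 ≤ τ → (∀ u : ℝ, τ < u → Summable fun n : ℕ => (v n) ^ (-u)) →
      ∃ E : Set ℝ, dimH E ≤ ENNReal.ofReal ((s + τ) / (1 - θ)) ∧ ∀ α : ℝ, 0 < α → α ∉ E →
        ∃ n₀ : ℕ, ∀ n : ℕ, n₀ ≤ n → ∀ t : ℕ, |(t : ℝ) - α * v n| ≤ (v n) ^ θ → t ∉ S) ∧
    (∃ E : Set ℝ, dimH E ≤ ENNReal.ofReal (s / (1 - θ)) ∧ ∀ α : ℝ, 1 < α → α ∉ E →
      ∃ n₀ : ℕ, ∀ n : ℕ, n₀ ≤ n → ∀ t : ℕ, |(t : ℝ) - α ^ n| ≤ (α ^ n) ^ θ → t ∉ S) ∧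
    (∃ E : Set ℝ, (∀ a : ℝ, 0 < a → dimH (E ∩ Set.Ici a) ≤ ENNReal.ofReal ((s + 1 / a) / (1 - θ))) ∧
      ∀ α : ℝ, 0 < α → α ∉ E →
        ∃ n₀ : ℕ, ∀ n : ℕ, n₀ ≤ n → ∀ t : ℕ, |(t : ℝ) - (n : ℝ) ^ α| ≤ ((n : ℝ) ^ α) ^ θ → t ∉ S) := by
  refine ⟨fun v τ hpos hτ hv => ?_, ?_, ?_⟩
  · obtain ⟨E, hE1, hE2⟩ := Pool.Agent.Y854.GM.windowsV (fun _ => S) (fun _ (t : ℕ) => (t : ℝ)) (v := v) (s := s)
      (τ := τ) (θ := θ) 1 hpos hτ hv hs hθ1 (by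
        intro A ε hε
        obtain ⟨C, hC⟩ := hS ε hε
        refine ⟨C * ((A : ℝ) + 1) ^ (s + ε), 0, fun n _ => ⟨?_, ?_⟩⟩
        · exact (Set.finite_Icc 0 ⌊((A : ℝ) + 1) * v n⌋₊).subset fun t ht => ⟨Nat.zero_le _, Nat.le_floor ht.2⟩
        · have h1 := hpos n
          have h2 : (0 : ℝ) ≤ A := Nat.cast_nonneg A
          have h3 := hC (((A : ℝ) + 1) * v n) (by nlinarith)
          rw [Real.mul_rpow (by positivity) (by linarith), ← mul_assoc] at h3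
          exact h3)
    refine ⟨E, hE1, fun α hα hαE => ?_⟩
    obtain ⟨n0, hn0⟩ := hE2 α hα hαE
    refine ⟨n0, fun n hn t ht hmem => ?_⟩
    have h1 := hn0 n hn t hmem
    rw [one_mul] at h1
    exact absurd ht (not_le.2 h1)
  · refine ⟨_, dim_powers S hs hθ0 hθ1 hS, fun α hα hαE => ?_⟩
    by_contra hcon
    push Not at hcon
    refine hαE ⟨hα, fun n₁ => ?_⟩
    obtain ⟨n, hn, t, ht1, ht2⟩ := hcon n₁
    exact ⟨n, hn, t, ht2, ht1⟩
  · refine ⟨{α : ℝ | 0 < α ∧ ∀ n₁ : ℕ, ∃ n : ℕ, n₁ ≤ n ∧ ∃ t ∈ S, |(t : ℝ) - (n : ℝ) ^ α| ≤ ((n : ℝ) ^ α) ^ θ},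
      fun a ha => (dimH_mono ?_).trans (dim_exps S ha hs hθ0 hθ1 hS), fun α hα hαE => ?_⟩
    · rintro α ⟨⟨-, h1⟩, h2⟩
      exact ⟨h2, h1⟩
    · by_contra hcon
      push Not at hcon
      refine hαE ⟨hα, fun n₁ => ?_⟩
      obtain ⟨n, hn, t, ht1, ht2⟩ := hcon n₁
      exact ⟨n, hn, t, ht2, ht1⟩

end Pool.Agent.H164.LS
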